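import Pool.Agent.helper39.P3.WBasic
import Pool.Agent.helper56.Per.Good

/-!
# P3, module A3 (Finite): regularity at finite places
-/

namespace Pool.Agent.helper56.P3

open Finset Pool.Agent.helper56.Per

section A3

variable {K : Type*} [Field K] {a b x3 : K} {n m : ℕ} {L L' X : K}
variable {Γ : Type*} [LinearOrderedCommGroupWithZero Γ] (v : Valuation K Γ)

/-- factors `≤ 1` with product `1` are all `1` -/
theorem finite_factor_one {n : ℕ} {f : ℕ → Γ} (h1 : ∀ i, f i ≤ 1)
    (h : ∏ i ∈ range n, f i = 1) : ∀ i ∈ range n, f i = 1 := by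
  induction n with
  | zero => intro i hi; simp at hi
  | succ k ih =>
    rw [prod_range_succ] at h
    have h2 : ∏ i ∈ range k, f i ≤ 1 := by
      have := prod_le_pow₀ (M := (1 : Γ)) h1 k
      rwa [one_pow] at this
    obtain ⟨h3, h4⟩ := prod_eq_one_le h2 (h1 k) h
    intro i hi
    rcases Nat.lt_succ_iff_lt_or_eq.1 (mem_range.1 hi) with hi | hi
    · exact ih h3 i (mem_range.2 hi)
    · rw [hi]; exact h4

theorem finite_good (hab : v (1 - a * b) = 1) (h : QX n m L L' X a b) (hL : v L = 1)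
    (hL' : v L' = 1) (ha : v a ≤ 1) (hb : v b ≤ 1) : v X ≤ 1 := by
  obtain ⟨z, y, hz, hy, -, -, -, hX⟩ := h
  obtain ⟨P, Q, c, hH, hP, hPQ, hQ0⟩ := hz.toH v
  obtain ⟨P', Q', c', hH', hP', hPQ', hQ0'⟩ := hy.toH v
  have e1 := lam_good v hH ha hb hab hP
  have e2 := lam_good v hH' ha hb hab hP'
  rw [hL] at e1
  rw [hL'] at e2
  have f1 := finite_factor_one (f := fun i => v (b * P i ^ 2 + 2 * P i * Q i + a * Q i ^ 2))
    (fun i => BB_le v ha hb (hP i)) e1.symm
  have f2 := finite_factor_one (f := fun i => v (b * P' i ^ 2 + 2 * P' i * Q' i + a * Q' i ^ 2))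
    (fun i => BB_le v ha hb (hP' i)) e2.symm
  rw [← hX, map_prod]
  refine prod_le_one' fun i hi => ?_
  rw [map_prod]
  refine prod_le_one' fun j hj => ?_
  have g1 : v (b * P i ^ 2 + 2 * P i * Q i + a * Q i ^ 2) = 1 := f1 i hi
  have g2 : v (b * P' j ^ 2 + 2 * P' j * Q' j + a * Q' j ^ 2) = 1 := f2 j hj
  have hB : b * P i ^ 2 + 2 * P i * Q i + a * Q i ^ 2 = (b * z i ^ 2 + 2 * z i + a) * Q i ^ 2 := by
    rw [hPQ]; ring
  have hB' : b * P' j ^ 2 + 2 * P' j * Q' j + a * Q' j ^ 2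
      = (b * y j ^ 2 + 2 * y j + a) * Q' j ^ 2 := by
    rw [hPQ']; ring
  have n1 : b * P i ^ 2 + 2 * P i * Q i + a * Q i ^ 2 ≠ 0 := by
    intro h0
    rw [h0, map_zero] at g1
    exact zero_ne_one g1
  have n2 : b * P' j ^ 2 + 2 * P' j * Q' j + a * Q' j ^ 2 ≠ 0 := by
    intro h0
    rw [h0, map_zero] at g2
    exact zero_ne_one g2
  have n3 : b * z i ^ 2 + 2 * z i + a ≠ 0 := by
    rw [hB] at n1; exact left_ne_zero_of_mul n1
  have n4 : b * y j ^ 2 + 2 * y j + a ≠ 0 := by
    rw [hB'] at n2; exact left_ne_zero_of_mul n2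
  have hE : EN a b (z i) (y j) = (1 - a * b) * (P i * Q' j - P' j * Q i) ^ 2 /
      ((b * P i ^ 2 + 2 * P i * Q i + a * Q i ^ 2) *
        (b * P' j ^ 2 + 2 * P' j * Q' j + a * Q' j ^ 2)) := by
    rw [hB, hB', hPQ, hPQ']
    have := hQ0 i
    have := hQ0' j
    unfold EN
    field_simp
  rw [hE, map_div₀, map_mul, map_mul, g1, g2, hab, one_mul, one_mul, div_one, map_pow]
  refine pow_le_one' ?_ 2
  have h1 : v (P i) ≤ 1 := hP i ▸ le_max_left _ _
  have h2 : v (Q i) ≤ 1 := hP i ▸ le_max_right _ _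
  have h3 : v (P' j) ≤ 1 := hP' j ▸ le_max_left _ _
  have h4 : v (Q' j) ≤ 1 := hP' j ▸ le_max_right _ _
  refine v.map_sub_le ?_ ?_
  · rw [map_mul]; exact mul_le_one' h1 h4
  · rw [map_mul]; exact mul_le_one' h3 h2

/-- one step from a large point -/
theorem finite_step_large {b t w w' : K} (hb : v b = 1) (ht : v t < 1)
    (hs : w' = (w + w⁻¹ + t) / b) (hw : 1 < v w) : v w' = v w := by
  have h1 : v (w⁻¹ + t) < v w := by
    apply Valuation.map_add_lt
    · rw [map_inv₀]
      exact (inv_lt_one_of_one_lt₀ hw).trans hw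
    · exact ht.trans hw
  rw [hs, map_div₀, hb, div_one, add_assoc, Valuation.map_add_eq_of_lt_left _ h1]

/-- one step from a small point -/
theorem finite_step_small {b t w w' : K} (hb : v b = 1) (ht : v t < 1)
    (hs : w' = (w + w⁻¹ + t) / b) (hw : v w < 1) (hw0 : w ≠ 0) : v w' = (v w)⁻¹ := by
  have h0 : 0 < v w := zero_lt_iff.2 ((v.ne_zero_iff).2 hw0)
  have h2 : 1 < v w⁻¹ := by
    rw [map_inv₀]
    exact (one_lt_inv₀ h0).2 hw
  have h1 : v (w + t) < v w⁻¹ := by
    apply Valuation.map_add_lt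
    · exact hw.trans h2
    · exact ht.trans h2
  rw [hs, map_div₀, hb, div_one, show w + w⁻¹ + t = (w + t) + w⁻¹ by ring,
    Valuation.map_add_eq_of_lt_right _ h1, map_inv₀]

theorem finite_ge {b c : K} {n : ℕ} {lam : K} {W : ℕ → K} (h : WCyc b c n lam W)
    (hb : v b = 1) (ht : v ((b - 1 - c ^ 2) / c) < 1) (i : ℕ) : 1 ≤ v (W i) := by
  by_contra hc
  rw [not_le] at hc
  have h0 : 0 < v (W i) := zero_lt_iff.2 ((v.ne_zero_iff).2 (h.ne0 i))
  have h1 : 1 < v (W (i + 1)) := by
    rw [finite_step_small v hb ht (h.step' i) hc (h.ne0 i)]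
    exact (one_lt_inv₀ h0).2 hc
  have h2 : ∀ k, 1 < v (W (i + (k + 1))) := by
    intro k
    induction k with
    | zero => exact h1
    | succ k ih =>
      have := finite_step_large v hb ht (h.step' (i + (k + 1))) ih
      rw [show i + (k + 1 + 1) = i + (k + 1) + 1 by ring, this]
      exact ih
  have h3 := h2 (n - 1)
  rw [Nat.sub_add_cancel h.npos, h.per] at h3
  exact absurd hc (not_lt.2 h3.le)

theorem finite_factor {b c : K} {n : ℕ} {lam : K} {W : ℕ → K} (h : WCyc b c n lam W)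
    (hb : v b = 1) (hl : v lam = 1) (hge : ∀ i, 1 ≤ v (W i)) (i : ℕ) (hi : i ∈ range n) :
    v (W i ^ 2 - 1) = v (W i) ^ 2 := by
  have e := congrArg v h.lam_prod
  rw [map_mul, map_pow, hb, hl, one_pow, one_mul, map_prod] at e
  have h1 : ∀ i, v (1 - (W i ^ 2)⁻¹) ≤ 1 := by
    intro i
    refine v.map_sub_le (by rw [map_one]) ?_
    rw [map_inv₀, map_pow]
    exact inv_le_one_of_one_le₀ (one_le_pow_of_one_le' (hge i) 2)
  have h2 : v (1 - (W i ^ 2)⁻¹) = 1 :=
    finite_factor_one (f := fun i => v (1 - (W i ^ 2)⁻¹)) h1 e i hi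
  have h0 := h.ne0 i
  have e2 : W i ^ 2 - 1 = W i ^ 2 * (1 - (W i ^ 2)⁻¹) := by field_simp
  rw [e2, map_mul, h2, mul_one, map_pow]

theorem finite_EW_le {w w' : K} (h : v (w ^ 2 - 1) = v w ^ 2) (h' : v (w' ^ 2 - 1) = v w' ^ 2)
    (hw : 1 ≤ v w) (hw' : 1 ≤ v w') : v (EW w w') ≤ 1 := by
  unfold EW
  have h0 : 0 < v w := zero_lt_one.trans_le hw
  have h0' : 0 < v w' := zero_lt_one.trans_le hw'
  rw [map_div₀, map_mul, h, h', map_pow, ← mul_pow, ← div_pow]
  refine pow_le_one' ?_ 2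
  rw [div_le_one₀ (mul_pos h0 h0')]
  refine v.map_sub_le ?_ ?_
  · exact le_mul_of_one_le_right' hw'
  · exact le_mul_of_one_le_left' hw

theorem finite_place [IsAlgClosed K] (hz : CharZ v) (hT : TS (QX n m L L' X) a b x3)
    (hab : a * b ≠ 1) (hL : v L = 1) (hL' : v L' = 1) (ha : v a ≤ 1) (hb : v b ≤ 1)
    (hx : v x3 ≤ 1) : v X ≤ 1 := by
  by_cases c1 : v (1 - a * b) = 1
  · exact finite_good v c1 (hT.ab hab) hL hL' ha hb
  by_cases c2 : v (1 - a * x3) = 1
  · refine finite_good v c2 (hT.ac ?_) hL hL' ha hx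
    intro h0
    rw [h0, sub_self, map_zero] at c2
    exact zero_ne_one c2
  by_cases c3 : v (1 - b * x3) = 1
  · refine finite_good v c3 (hT.bc ?_) hL hL' hb hx
    intro h0
    rw [h0, sub_self, map_zero] at c3
    exact zero_ne_one c3
  have lt : ∀ x y : K, v x ≤ 1 → v y ≤ 1 → v (1 - x * y) ≠ 1 → v (1 - x * y) < 1 := by
    intro x y hx hy h
    refine lt_of_le_of_ne (v.map_sub_le (by rw [map_one]) ?_) h
    rw [map_mul]; exact mul_le_one' hx hy
  have h1 := lt a b ha hb c1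
  have h2 := lt a x3 ha hx c2
  have h3 := lt b x3 hb hx c3
  have d1 : v (b - a) < 1 := by
    have : b - a = b * (1 - a * x3) + -(a * (1 - b * x3)) := by ring
    rw [this]
    apply Valuation.map_add_lt v
    · rw [map_mul]; exact lt1_of_le_of_lt hb h2
    · rw [Valuation.map_neg, map_mul]; exact lt1_of_le_of_lt ha h3
  have d2 : v (x3 - a) < 1 := by
    have : x3 - a = x3 * (1 - a * b) + -(a * (1 - b * x3)) := by ring
    rw [this]
    apply Valuation.map_add_lt v
    · rw [map_mul]; exact lt1_of_le_of_lt hx h1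
    · rw [Valuation.map_neg, map_mul]; exact lt1_of_le_of_lt ha h3
  have v2 : v 2 = 1 := by
    have := hz 2 two_ne_zero
    rwa [Nat.cast_ofNat] at this
  -- `a = 1` modulo the maximal ideal
  have a1 : v (1 - a) < 1 := by
    have e : 2 * (1 - a) = x3 * (1 - a * b) + (b - a) := by linear_combination hT.rel
    have e2 := congrArg v e
    rw [map_mul, v2, one_mul] at e2
    rw [e2]
    apply Valuation.map_add_lt v _ d1
    rw [map_mul]; exact lt1_of_le_of_lt hx h1
  have b1 : v (1 - b) < 1 := by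
    rw [show 1 - b = (1 - a) + -(b - a) by ring]
    apply Valuation.map_add_lt v a1
    rwa [Valuation.map_neg]
  have x1 : v (1 - x3) < 1 := by
    rw [show 1 - x3 = (1 - a) + -(x3 - a) by ring]
    apply Valuation.map_add_lt v a1
    rwa [Valuation.map_neg]
  have hδ : 1 - a * b ≠ 0 := sub_ne_zero.2 (Ne.symm hab)
  have hvδ : 0 < v (1 - a * b) := zero_lt_iff.2 ((v.ne_zero_iff).2 hδ)
  -- `|α β| < |δ|`
  have hαβ : v (1 - a) * v (1 - b) < v (1 - a * b) := by
    have e : (1 - a) * (1 - b) = -((1 - x3) * (1 - a * b)) := by linear_combination hT.rel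
    rw [← map_mul, e, Valuation.map_neg, map_mul]
    have := mul_lt_mul_of_pos_right x1 hvδ
    rwa [one_mul] at this
  have hβ2 : v (1 - b) ^ 2 < v (1 - a * b) := by
    rcases le_or_gt (v (1 - b)) (v (1 - a)) with hle | hlt
    · refine lt_of_le_of_lt ?_ hαβ
      rw [sq]
      exact mul_le_mul_left hle _
    · have e : 1 - a * b = (1 - b) + ((1 - a) + -((1 - a) * (1 - b))) := by ring
      have hb0 : 0 < v (1 - b) := (zero_le).trans_lt hlt
      have h4 : v ((1 - a) + -((1 - a) * (1 - b))) < v (1 - b) := by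
        apply Valuation.map_add_lt v hlt
        rw [Valuation.map_neg, map_mul]
        have := mul_lt_mul_of_pos_right a1 hb0
        rwa [one_mul] at this
      rw [e, Valuation.map_add_eq_of_lt_left v h4, sq]
      have := mul_lt_mul_of_pos_right b1 hb0
      rwa [one_mul] at this
  have vb : v b = 1 := by
    rw [show b = 1 + -(1 - b) by ring, Valuation.map_add_eq_of_lt_left, map_one]
    rw [Valuation.map_neg, map_one]; exact b1
  have hb0 : b ≠ 0 := by
    rintro rfl
    rw [map_zero] at vb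
    exact zero_ne_one vb
  obtain ⟨c, hc⟩ := IsAlgClosed.exists_pow_nat_eq (1 - a * b) (n := 2) (by norm_num)
  have hc0 : c ≠ 0 := by
    rintro rfl
    rw [zero_pow two_ne_zero] at hc
    exact hδ hc.symm
  have ht : v ((b - 1 - c ^ 2) / c) < 1 := by
    by_contra hcon
    rw [not_lt] at hcon
    have h5 : 1 ≤ v ((b - 1 - c ^ 2) / c) ^ 2 := one_le_pow_of_one_le' hcon 2
    rw [← map_pow, div_pow, map_div₀, hc, one_le_div₀ hvδ] at h5
    have h6 : v ((b - 1 - (1 - a * b)) ^ 2) < v (1 - a * b) := by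
      rw [show (b - 1 - (1 - a * b)) ^ 2 = (1 - b) ^ 2 + ((1 - a * b) * (2 * (1 - b) + (1 - a * b)))
        by ring]
      apply Valuation.map_add_lt v
      · rw [map_pow]; exact hβ2
      · rw [map_mul]
        have h7 : v (2 * (1 - b) + (1 - a * b)) < 1 := by
          apply Valuation.map_add_lt v _ h1
          rw [map_mul, v2, one_mul]; exact b1
        have := mul_lt_mul_of_pos_left h7 hvδ
        rwa [mul_one] at this
    exact absurd h5 (not_le.2 h6)
  obtain ⟨z, y, hz, hy, ez, ey, -, hX⟩ := hT.ab hab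
  have w1 := toW hz ez hb0 hc hc0
  have w2 := toW hy ey hb0 hc hc0
  have g1 := finite_ge v w1 vb ht
  have g2 := finite_ge v w2 vb ht
  rw [← hX, map_prod]
  refine prod_le_one' fun i hi => ?_
  rw [map_prod]
  refine prod_le_one' fun j hj => ?_
  rw [EN_eq_EW hb0 hc hc0]
  exact finite_EW_le v (finite_factor v w1 vb hL g1 i hi) (finite_factor v w2 vb hL' g2 j hj)
    (g1 i) (g2 j)

end A3

end Pool.Agent.helper56.P3
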