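import Pool.Agent.helper56.P3.Defs2
import Pool.Agent.helper17.P3.SymCoord
import Pool.Agent.helper36.P3.Places
import Pool.Agent.helper56.Per.Two
import Pool.Agent.helper52.P3.SymExp
import Pool.Agent.helper95.P3.ClassifyB

/-!
# P3, module Lc: the multiplier in the symmetric coordinate, and the half turn
-/

namespace Pool.Agent.helper56.P3

open Finset Pool.Agent.helper56.Per

section Lc

variable {k K : Type*} [Field k] [Field K] [Algebra k K]
  {P : ValuationSubring K} {b c τ β S : K} {n m q : ℕ}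
  {Γ : Type*} [LinearOrderedCommGroupWithZero Γ]

section gen

variable {v : Valuation K Γ}

/-- the basic one step relation `b (1 - c x') = (1 - c x) (1 - c / x)` -/
theorem Lc_step {x x' : K} (hb : b ≠ 0) (hc : c ≠ 0) (hx0 : x ≠ 0)
    (hx : x' = (x + x⁻¹ + (b - 1 - c ^ 2) / c) / b) :
    1 - c * x' = b⁻¹ * ((1 - c * x) * (1 - c / x)) := by
  rw [hx]
  field_simp
  ring

theorem Lc_mul_congr {x x' y y' : K} {r : Γ} (hx : v x ≤ 1) (hy' : v y' ≤ 1) (h : v (x - y) < r)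
    (h' : v (x' - y') < r) : v (x * x' - y * y') < r := by
  have e : x * x' - y * y' = x * (x' - y') + (x - y) * y' := by ring
  rw [e]
  apply Valuation.map_add_lt
  · rw [map_mul]; exact (mul_le_of_le_one_left' hx).trans_lt h'
  · rw [map_mul]; exact (mul_le_of_le_one_right' hy').trans_lt h

/-- first order expansion of a product -/
theorem Lc_prod {ι : Type*} (s : Finset ι) {x a : ι → K} (vt : v τ < 1) (t0 : τ ≠ 0)
    (ha : ∀ i ∈ s, v (a i) ≤ 1)
    (hx : ∀ i ∈ s, v (x i - (1 + τ ^ 2 * a i)) < v τ ^ 2) :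
    v (∏ i ∈ s, x i - (1 + τ ^ 2 * ∑ i ∈ s, a i)) < v τ ^ 2 ∧ v (∑ i ∈ s, a i) ≤ 1 := by
  classical
  have hτ : 0 < v τ ^ 2 := pow_pos (zero_lt_iff.2 ((v.ne_zero_iff).2 t0)) 2
  have hτ1 : v τ ^ 2 < 1 := pow_lt_one₀ zero_le vt two_ne_zero
  induction s using Finset.induction_on with
  | empty => simpa using hτ
  | insert i s his ih =>
    rw [prod_insert his, sum_insert his]
    obtain ⟨h1, h2⟩ := ih (fun j hj => ha j (mem_insert_of_mem hj))
      (fun j hj => hx j (mem_insert_of_mem hj))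
    have h3 := ha i (mem_insert_self i s)
    have h4 := hx i (mem_insert_self i s)
    refine ⟨?_, v.map_add_le h3 h2⟩
    set A := ∑ j ∈ s, a j with hA
    have e : x i * ∏ j ∈ s, x j - (1 + τ ^ 2 * (a i + A))
        = (x i * ∏ j ∈ s, x j - (1 + τ ^ 2 * a i) * (1 + τ ^ 2 * A))
          + τ ^ 2 * (τ ^ 2 * (a i * A)) := by ring
    rw [e]
    have h5 : ∀ y : K, v y ≤ 1 → v (1 + τ ^ 2 * y) ≤ 1 := by
      intro y hy
      refine v.map_add_le (by rw [map_one]) ?_
      rw [map_mul, map_pow]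
      exact mul_le_one' hτ1.le hy
    apply Valuation.map_add_lt
    · apply Lc_mul_congr _ (h5 A h2) h4 h1
      have e2 : x i = (x i - (1 + τ ^ 2 * a i)) + (1 + τ ^ 2 * a i) := by ring
      rw [e2]
      exact v.map_add_le (h4.trans hτ1).le (h5 _ h3)
    · rw [map_mul, map_mul, map_mul, map_pow]
      calc v τ ^ 2 * (v τ ^ 2 * (v (a i) * v A)) ≤ v τ ^ 2 * (v τ ^ 2 * 1) := by
            gcongr
            exact mul_le_one' h3 h2
        _ = v τ ^ 2 * v τ ^ 2 := by rw [mul_one]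
        _ < v τ ^ 2 * 1 := mul_lt_mul_of_pos_left hτ1 hτ
        _ = v τ ^ 2 := mul_one _

theorem Lc_one_add {y : K} (hy : v y < 1) : v (1 + y) = 1 := by
  rw [Valuation.map_add_eq_of_lt_left, map_one]
  rwa [map_one]

theorem Lc_one_sub {y : K} (hy : v y < 1) : v (1 - y) = 1 := by
  rw [sub_eq_add_neg]
  exact Lc_one_add (by rwa [Valuation.map_neg])

theorem Lc_ne_zero {y : K} (hy : v y = 1) : y ≠ 0 := by
  rintro rfl
  rw [map_zero] at hy
  exact zero_ne_one hy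

/-- the factor in the symmetric coordinate -/
theorem Lc_R {W : K} (ht : c * (1 + τ ^ 2) = 2 * τ) (h1 : 1 + τ ^ 2 ≠ 0) (h2 : 1 - τ ^ 2 ≠ 0)
    (hW : W ≠ 0) (hWc : W - c ≠ 0) (hWτ : W - τ ≠ 0) :
    (W ^ 2 - 1) / (W * (W - c))
      = (1 + τ ^ 2) * (1 - ((1 - τ * W) / (W - τ)) ^ 2)
        / (1 - τ ^ 2 * ((1 - τ * W) / (W - τ)) ^ 2) := by
  have hc : c = 2 * τ / (1 + τ ^ 2) := by rw [← ht]; field_simp
  have e1 : 1 - ((1 - τ * W) / (W - τ)) ^ 2 = (W ^ 2 - 1) * (1 - τ ^ 2) / (W - τ) ^ 2 := by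
    field_simp
    ring
  have e2 : 1 - τ ^ 2 * ((1 - τ * W) / (W - τ)) ^ 2
      = (1 + τ ^ 2) * (1 - τ ^ 2) * (W * (W - c)) / (W - τ) ^ 2 := by
    rw [hc]
    field_simp
    ring
  rw [e1, e2]
  field_simp

theorem Lc_outer {u φ ψ : K} (t0 : τ ≠ 0) (vt : v τ < 1) (hφ : v φ ≤ 1) (hψ : v ψ ≤ 1)
    (hu : v (u - (τ * φ + τ ^ 2 * ψ)) < v τ ^ 2) :
    v ((1 + τ ^ 2) * (1 - u ^ 2) / (1 - τ ^ 2 * u ^ 2) - (1 + τ ^ 2 * (1 - φ ^ 2))) < v τ ^ 2 := by
  have hτp : 0 < v τ := zero_lt_iff.2 ((v.ne_zero_iff).2 t0)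
  have hτ : 0 < v τ ^ 2 := pow_pos hτp 2
  have hτ1 : v τ ^ 2 < 1 := pow_lt_one₀ zero_le vt two_ne_zero
  have hττ : v τ ^ 2 ≤ v τ := by
    rw [sq]; exact mul_le_of_le_one_left' vt.le
  have h1 : v (u - τ * φ) ≤ v τ ^ 2 := by
    rw [show u - τ * φ = (u - (τ * φ + τ ^ 2 * ψ)) + τ ^ 2 * ψ by ring]
    refine v.map_add_le hu.le ?_
    rw [map_mul, map_pow]
    exact mul_le_of_le_one_right' hψ
  have h2 : v (τ * φ) ≤ v τ := by rw [map_mul]; exact mul_le_of_le_one_right' hφ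
  have h3 : v u ≤ v τ := by
    rw [show u = (u - τ * φ) + τ * φ by ring]
    exact v.map_add_le (h1.trans hττ) h2
  have h4 : v (u ^ 2 - τ ^ 2 * φ ^ 2) < v τ ^ 2 := by
    rw [show u ^ 2 - τ ^ 2 * φ ^ 2 = (u - τ * φ) * (u + τ * φ) by ring, map_mul]
    calc v (u - τ * φ) * v (u + τ * φ) ≤ v τ ^ 2 * v τ := mul_le_mul' h1 (v.map_add_le h3 h2)
      _ < v τ ^ 2 * 1 := mul_lt_mul_of_pos_left vt hτ
      _ = v τ ^ 2 := mul_one _
  have h5 : v (τ ^ 2 * u ^ 2) < 1 := by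
    rw [map_mul, map_pow, map_pow]
    exact lt1_of_lt_of_le hτ1 (pow_le_one' (h3.trans vt.le) 2)
  have h6 := Lc_one_sub h5
  have h7 := Lc_ne_zero h6
  have e : (1 + τ ^ 2) * (1 - u ^ 2) / (1 - τ ^ 2 * u ^ 2) - (1 + τ ^ 2 * (1 - φ ^ 2))
      = (-(u ^ 2 - τ ^ 2 * φ ^ 2) + τ ^ 2 * (τ ^ 2 * ((1 - φ ^ 2) * u ^ 2)))
        / (1 - τ ^ 2 * u ^ 2) := by
    field_simp
    ring
  rw [e, map_div₀, h6, div_one]
  apply Valuation.map_add_lt
  · rwa [Valuation.map_neg]
  · rw [map_mul, map_mul, map_mul, map_pow, map_pow]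
    have h8 : v (1 - φ ^ 2) ≤ 1 := by
      refine v.map_sub_le (by rw [map_one]) ?_
      rw [map_pow]; exact pow_le_one' hφ 2
    calc v τ ^ 2 * (v τ ^ 2 * (v (1 - φ ^ 2) * v u ^ 2)) ≤ v τ ^ 2 * (v τ ^ 2 * 1) := by
          gcongr
          exact mul_le_one' h8 (pow_le_one' (h3.trans vt.le) 2)
      _ = v τ ^ 2 * v τ ^ 2 := by rw [mul_one]
      _ < v τ ^ 2 * 1 := mul_lt_mul_of_pos_left hτ1 hτ
      _ = v τ ^ 2 := mul_one _

theorem Lc_central {u w : K} (t0 : τ ≠ 0) (vt : v τ < 1) (hu : v u ≤ 1) (hw : v (u - w) < 1)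
    (hw1 : v w ≤ 1) :
    v ((1 + τ ^ 2) * (1 - u ^ 2) / (1 - τ ^ 2 * u ^ 2)
      - (1 - u ^ 2) * (1 + τ ^ 2 * (1 + w ^ 2))) < v τ ^ 2 := by
  have hτp : 0 < v τ := zero_lt_iff.2 ((v.ne_zero_iff).2 t0)
  have hτ : 0 < v τ ^ 2 := pow_pos hτp 2
  have hτ1 : v τ ^ 2 < 1 := pow_lt_one₀ zero_le vt two_ne_zero
  have h5 : v (τ ^ 2 * u ^ 2) < 1 := by
    rw [map_mul, map_pow, map_pow]
    exact lt1_of_lt_of_le hτ1 (pow_le_one' hu 2)
  have h6 := Lc_one_sub h5
  have h7 := Lc_ne_zero h6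
  have e : (1 + τ ^ 2) * (1 - u ^ 2) / (1 - τ ^ 2 * u ^ 2)
      - (1 - u ^ 2) * (1 + τ ^ 2 * (1 + w ^ 2))
      = τ ^ 2 * (((1 - u ^ 2) * ((u - w) * (u + w) + τ ^ 2 * ((1 + w ^ 2) * u ^ 2)))
        / (1 - τ ^ 2 * u ^ 2)) := by
    field_simp
    ring
  rw [e, map_mul, map_div₀, h6, div_one, map_pow, map_mul]
  have h8 : v (1 - u ^ 2) ≤ 1 := by
    refine v.map_sub_le (by rw [map_one]) ?_
    rw [map_pow]; exact pow_le_one' hu 2
  have h9 : v ((u - w) * (u + w) + τ ^ 2 * ((1 + w ^ 2) * u ^ 2)) < 1 := by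
    apply Valuation.map_add_lt
    · rw [map_mul]
      exact lt1_of_lt_of_le hw (v.map_add_le hu hw1)
    · rw [map_mul, map_pow, map_mul, map_pow]
      apply lt1_of_lt_of_le hτ1
      refine mul_le_one' (v.map_add_le (by rw [map_one]) ?_) (pow_le_one' hu 2)
      rw [map_pow]; exact pow_le_one' hw1 2
  calc v τ ^ 2 * (v (1 - u ^ 2) * v ((u - w) * (u + w) + τ ^ 2 * ((1 + w ^ 2) * u ^ 2)))
      < v τ ^ 2 * 1 := mul_lt_mul_of_pos_left (lt1_of_le_of_lt h8 h9) hτ
    _ = v τ ^ 2 := mul_one _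

end gen

/-- telescoping -/
theorem Lc_tel {x : ℕ → K} (hb : b ≠ 0) (hc0 : c ≠ 0) (j : ℕ)
    (hx : ∀ l < j, x (l + 1) = (x l + (x l)⁻¹ + (b - 1 - c ^ 2) / c) / b)
    (h0 : ∀ l < j, x l ≠ 0) (h1 : ∀ l < j, x l - c ≠ 0) (h2 : ∀ l ≤ j, c * x l - 1 ≠ 0) :
    (∏ l ∈ range j, (1 - (x l ^ 2)⁻¹)) * b⁻¹ ^ j * ((c * x 0 - 1) / (c * x j - 1))
      = ∏ l ∈ range j, ((x l ^ 2 - 1) / (x l * (x l - c))) := by
  induction j with
  | zero => simp [div_self (h2 0 le_rfl)]
  | succ j ih =>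
    have ih' := ih (fun l hl => hx l (hl.trans (Nat.lt_succ_self j)))
      (fun l hl => h0 l (hl.trans (Nat.lt_succ_self j)))
      (fun l hl => h1 l (hl.trans (Nat.lt_succ_self j)))
      (fun l hl => h2 l (hl.trans (Nat.le_succ j)))
    rw [prod_range_succ, prod_range_succ, ← ih']
    have s := Lc_step hb hc0 (h0 j (Nat.lt_succ_self j)) (hx j (Nat.lt_succ_self j))
    have a0 := h0 j (Nat.lt_succ_self j)
    have a1 := h1 j (Nat.lt_succ_self j)
    have a2 := h2 j (Nat.le_succ j)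
    have a3 := h2 (j + 1) le_rfl
    have s' : c * x (j + 1) - 1 = b⁻¹ * ((c * x j - 1) * (x j - c)) / x j := by
      have : c * x (j + 1) - 1 = -(1 - c * x (j + 1)) := by ring
      rw [this, s]
      field_simp
      ring
    rw [s', pow_succ b⁻¹ j]
    generalize (∏ l ∈ range j, (1 - (x l ^ 2)⁻¹)) = Pr
    generalize b⁻¹ ^ j = Bj
    generalize x j = y at *
    field_simp

theorem Lc_vc {v : Valuation K Γ} (h2 : v 2 = 1) (vt : v τ < 1) (ht : c * (1 + τ ^ 2) = 2 * τ) :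
    v c = v τ := by
  have h1 : v (1 + τ ^ 2) = 1 := by
    apply Lc_one_add
    rw [map_pow]; exact pow_lt_one₀ zero_le vt two_ne_zero
  have := congrArg v ht
  rw [map_mul, map_mul, h1, h2, mul_one, one_mul] at this
  exact this

theorem L_mul [CharZero k] (hP : IsPl k P) (hc : Ctx P.valuation b c)
    (hr : Rot P.valuation b c q) (hs : Sym P.valuation b c τ β S q) {ζ t w : k}
    (hζ : P.valuation (b - algebraMap k K ζ) < 1)
    (ht : P.valuation (S - algebraMap k K t) < 1) {x : ℕ → K}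
    (hx : ∀ l < q, x (l + 1) = (x l + (x l)⁻¹ + (b - 1 - c ^ 2) / c) / b)
    (hx0 : P.valuation (x 0 - algebraMap k K w) < 1) (hw : w ≠ 0) :
    P.valuation ((∏ l ∈ range q, (1 - (x l ^ 2)⁻¹)) * b⁻¹ ^ q * ((c * x 0 - 1) / (c * x q - 1))
      - (1 - (yc τ (x 0) ^ 2)⁻¹) * (1 + τ ^ 2 * algebraMap k K ((w ^ 2)⁻¹ + ((q : k) ^ 2 + 2) / 3)))
      < P.valuation τ ^ 2 := by
  have hz := hP.charZ
  have v2 : P.valuation 2 = 1 := by
    have := hz 2 two_ne_zero
    rwa [Nat.cast_ofNat] at this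
  set v := P.valuation with hv
  have t0 := hs.t0
  have vt := hs.vt
  have vτ0 : 0 < v τ := zero_lt_iff.2 ((v.ne_zero_iff).2 t0)
  have hτ : 0 < v τ ^ 2 := pow_pos vτ0 2
  have hτ1 : v τ ^ 2 < 1 := pow_lt_one₀ zero_le vt two_ne_zero
  have vc : v c = v τ := Lc_vc v2 vt hs.ht
  have hb0 : b ≠ 0 := Lc_ne_zero hc.vb
  have hc0 := hc.c0
  have n1 : (1 : K) + τ ^ 2 ≠ 0 := Lc_ne_zero (v := v) (Lc_one_add (by rw [map_pow]; exact hτ1))
  have n2 : (1 : K) - τ ^ 2 ≠ 0 := Lc_ne_zero (v := v) (Lc_one_sub (by rw [map_pow]; exact hτ1))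
  have vw : v (algebraMap k K w) = 1 := hP.cst w hw
  have vx0 : v (x 0) = 1 := by
    rw [show x 0 = algebraMap k K w + (x 0 - algebraMap k K w) by ring,
      Valuation.map_add_eq_of_lt_left, vw]
    rwa [vw]
  obtain ⟨hout, hend⟩ := central_orbit v hc hr hx vx0
  -- `ζ` is a primitive root of unity
  have hζ1 : v (algebraMap k K ζ) = 1 := by
    rw [show algebraMap k K ζ = b + -(b - algebraMap k K ζ) by ring,
      Valuation.map_add_eq_of_lt_left, hc.vb]
    rwa [hc.vb, Valuation.map_neg]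
  have hpow : ∀ j, v (b ^ j - algebraMap k K (ζ ^ j)) < 1 := by
    intro j
    rw [map_pow]
    exact (pow_congr_v v hc.vb.le hζ1.le j).trans_lt hζ
  have hprim : IsPrimitiveRoot ζ q := by
    have hq : ζ ^ q = 1 := by
      have h1 : v (algebraMap k K (ζ ^ q - 1)) < 1 := by
        rw [map_sub, map_one, show algebraMap k K (ζ ^ q) - 1
          = (b ^ q - 1) + -(b ^ q - algebraMap k K (ζ ^ q)) by ring]
        apply Valuation.map_add_lt
        · exact hr.le.trans_lt hc.vc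
        · rw [Valuation.map_neg]; exact hpow q
      by_contra hne
      exact absurd (hP.cst _ (sub_ne_zero.2 hne)) h1.ne
    refine IsPrimitiveRoot.mk_of_lt ζ (by have := hr.two_le; omega) hq ?_
    intro j hj hjq hζj
    have h1 := hr.one j hj hjq
    have h2 := hpow j
    rw [hζj, map_one] at h2
    exact absurd h1 h2.ne
  obtain ⟨-, -, -, hsum⟩ := root_sums hr.two_le hprim
  -- telescoping
  have hne0 : ∀ l < q, x l ≠ 0 := by
    intro l hl
    rcases Nat.eq_zero_or_pos l with h | h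
    · rw [h]; exact Lc_ne_zero vx0
    · have := (hout l h hl).1
      rintro h0
      rw [h0, map_zero] at this
      exact absurd this (not_lt.2 zero_le)
  have hge : ∀ l < q, 1 ≤ v (x l) := by
    intro l hl
    rcases Nat.eq_zero_or_pos l with h | h
    · rw [h, vx0]
    · exact (hout l h hl).1.le
  have hnec : ∀ y : K, v y < 1 → ∀ l < q, x l - y ≠ 0 := by
    intro y hy l hl h0
    rw [sub_eq_zero] at h0
    have := hge l hl
    rw [h0] at this
    exact absurd hy (not_lt.2 this)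
  have hTT : v (TT b c q) ≤ 1 := by
    unfold TT
    have e : 1 - b⁻¹ ^ q = b⁻¹ ^ q * (b ^ q - 1) := by
      rw [mul_sub, ← mul_pow, inv_mul_cancel₀ hb0, one_pow, mul_one]
    rw [e, map_div₀, map_mul, map_pow, map_inv₀, hc.vb, inv_one, one_pow, one_mul]
    exact (div_le_one₀ (by rw [vc]; exact vτ0)).2 hr.le
  have vxq : v (x q) ≤ 1 := by
    rw [show x q = (x q - (x 0 + (x 0)⁻¹ + TT b c q)) + (x 0 + (x 0)⁻¹ + TT b c q) by ring]
    refine v.map_add_le hend.le (v.map_add_le (v.map_add_le vx0.le ?_) hTT)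
    rw [map_inv₀, vx0, inv_one]
  have hne1 : ∀ l ≤ q, c * x l - 1 ≠ 0 := by
    intro l hl
    by_cases hl0 : 0 < l ∧ l < q
    · have h1 := (hout l hl0.1 hl0.2).2
      intro h0
      have e : c * x l - (1 - b⁻¹ ^ l) = (c * x l - 1) + b⁻¹ ^ l := by ring
      rw [e, h0, zero_add, map_pow, map_inv₀, hc.vb, inv_one, one_pow] at h1
      exact lt_irrefl _ h1
    · have h1 : v (x l) ≤ 1 := by
        rcases Nat.eq_zero_or_pos l with h | h
        · rw [h, vx0]
        · have : l = q := by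
            by_contra hne
            exact hl0 ⟨h, lt_of_le_of_ne hl hne⟩
          rw [this]; exact vxq
      have h2 : v (c * x l) < 1 := by
        rw [map_mul]; exact lt1_of_lt_of_le hc.vc h1
      have h3 := Lc_one_sub h2
      intro h0
      rw [show 1 - c * x l = -(c * x l - 1) by ring, h0, neg_zero, map_zero] at h3
      exact zero_ne_one h3
  rw [Lc_tel hb0 hc0 q hx hne0 (hnec c hc.vc) hne1]
  -- factors
  have hq1 : 1 ≤ q := by have := hr.two_le; omega
  have hvk : ∀ α : k, v (algebraMap k K α) ≤ 1 := hP.cst_le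
  have hfac : ∀ l ∈ Ico 1 q, v ((x l ^ 2 - 1) / (x l * (x l - c))
      - (1 + τ ^ 2 * algebraMap k K (1 - ((1 + ζ⁻¹ ^ l) / (1 - ζ⁻¹ ^ l)) ^ 2))) < v τ ^ 2 := by
    intro l hl
    obtain ⟨hl1, hlq⟩ := mem_Ico.1 hl
    rw [Lc_R hs.ht n1 n2 (hne0 l hlq) (hnec c hc.vc l hlq) (hnec τ vt l hlq),
      map_sub (algebraMap k K), map_one (algebraMap k K), map_pow (algebraMap k K)]
    exact Lc_outer t0 vt (hvk _) (hvk _)
      (L_out hP hc hr hs hζ ht hx hx0 hw (by omega) hlq)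
  obtain ⟨p1, p2⟩ := Lc_prod (Ico 1 q) vt t0
    (a := fun l => algebraMap k K (1 - ((1 + ζ⁻¹ ^ l) / (1 - ζ⁻¹ ^ l)) ^ 2))
    (fun l _ => hvk _) hfac
  have hsum' : ∑ l ∈ Ico 1 q, (1 - ((1 + ζ⁻¹ ^ l) / (1 - ζ⁻¹ ^ l)) ^ 2 : k)
      = ((q : k) ^ 2 - 1) / 3 := by
    rw [sum_sub_distrib, hsum, sum_const, Nat.card_Ico, nsmul_eq_mul, mul_one, Nat.cast_sub hq1]
    push_cast
    ring
  rw [← map_sum, hsum'] at p1
  -- the factor `l = 0`
  have hu0 : v ((1 - τ * x 0) / (x 0 - τ)) ≤ 1 := by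
    have h1 : v (1 - τ * x 0) = 1 := by
      apply Lc_one_sub
      rw [map_mul, vx0, mul_one]; exact vt
    have h2 : v (x 0 - τ) = 1 := by
      rw [Valuation.map_sub_eq_of_lt_left, vx0]
      rwa [vx0]
    rw [map_div₀, h1, h2, div_one]
  have hu1 : v ((1 - τ * x 0) / (x 0 - τ) - algebraMap k K w⁻¹) < 1 := by
    have h2 : v (x 0 - τ) = 1 := by
      rw [Valuation.map_sub_eq_of_lt_left, vx0]
      rwa [vx0]
    have h3 := Lc_ne_zero h2
    have hw0 : algebraMap k K w ≠ 0 := Lc_ne_zero vw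
    have e : (1 - τ * x 0) / (x 0 - τ) - algebraMap k K w⁻¹
        = (-(x 0 - algebraMap k K w) + τ * (1 - algebraMap k K w * x 0))
          / ((x 0 - τ) * algebraMap k K w) := by
      rw [map_inv₀]
      field_simp
      ring
    rw [e, map_div₀, map_mul, h2, vw, mul_one, div_one]
    apply Valuation.map_add_lt
    · rwa [Valuation.map_neg]
    · rw [map_mul]
      apply lt1_of_lt_of_le vt
      refine v.map_sub_le (by rw [map_one]) ?_
      rw [map_mul, vw, vx0, mul_one]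
  have h0 := Lc_central t0 vt hu0 hu1 (hvk _)
  rw [← Lc_R hs.ht n1 n2 (hne0 0 hq1) (hnec c hc.vc 0 hq1) (hnec τ vt 0 hq1)] at h0
  have hyc : (yc τ (x 0) ^ 2)⁻¹ = ((1 - τ * x 0) / (x 0 - τ)) ^ 2 := by
    unfold yc
    rw [← inv_pow, inv_div]
  rw [hyc]
  set u := (1 - τ * x 0) / (x 0 - τ) with hu
  rw [prod_range_eq_mul_Ico _ hq1]
  have hB : v (1 + τ ^ 2 * algebraMap k K (((q : k) ^ 2 - 1) / 3)) ≤ 1 := by
    refine v.map_add_le (by rw [map_one]) ?_
    rw [map_mul, map_pow]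
    exact mul_le_one' hτ1.le (hvk _)
  have h8 : v (1 - u ^ 2) ≤ 1 := by
    refine v.map_sub_le (by rw [map_one]) ?_
    rw [map_pow]; exact pow_le_one' hu0 2
  have h9 : v (1 + algebraMap k K w⁻¹ ^ 2) ≤ 1 := by
    refine v.map_add_le (by rw [map_one]) ?_
    rw [map_pow]; exact pow_le_one' (hvk _) 2
  have hA : v ((1 - u ^ 2) * (1 + τ ^ 2 * (1 + algebraMap k K w⁻¹ ^ 2))) ≤ 1 := by
    rw [map_mul]
    refine mul_le_one' h8 (v.map_add_le (by rw [map_one]) ?_)
    rw [map_mul, map_pow]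
    exact mul_le_one' hτ1.le h9
  have hR : v ((x 0 ^ 2 - 1) / (x 0 * (x 0 - c))) ≤ 1 := by
    rw [show (x 0 ^ 2 - 1) / (x 0 * (x 0 - c)) = ((x 0 ^ 2 - 1) / (x 0 * (x 0 - c))
      - (1 - u ^ 2) * (1 + τ ^ 2 * (1 + algebraMap k K w⁻¹ ^ 2)))
      + (1 - u ^ 2) * (1 + τ ^ 2 * (1 + algebraMap k K w⁻¹ ^ 2)) by ring]
    exact v.map_add_le (h0.trans hτ1).le hA
  have h10 := Lc_mul_congr hR hB h0 p1
  have hσ : algebraMap k K ((w ^ 2)⁻¹ + ((q : k) ^ 2 + 2) / 3)
      = algebraMap k K w⁻¹ ^ 2 + algebraMap k K (((q : k) ^ 2 - 1) / 3) + 1 := by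
    rw [← map_pow, ← map_add, ← map_one (algebraMap k K), ← map_add]
    congr 1
    rw [inv_pow]
    ring
  rw [hσ]
  have hvσ := hvk (((q : k) ^ 2 - 1) / 3)
  generalize algebraMap k K (((q : k) ^ 2 - 1) / 3) = σ at *
  generalize algebraMap k K w⁻¹ = ω at *
  generalize (x 0 ^ 2 - 1) / (x 0 * (x 0 - c)) = R0 at *
  generalize (∏ l ∈ Ico 1 q, (x l ^ 2 - 1) / (x l * (x l - c))) = Q0 at *
  have e : R0 * Q0 - (1 - u ^ 2) * (1 + τ ^ 2 * (ω ^ 2 + σ + 1))
      = (R0 * Q0 - (1 - u ^ 2) * (1 + τ ^ 2 * (1 + ω ^ 2)) * (1 + τ ^ 2 * σ))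
        + τ ^ 2 * (τ ^ 2 * ((1 - u ^ 2) * ((1 + ω ^ 2) * σ))) := by ring
  rw [e]
  apply Valuation.map_add_lt _ h10
  rw [map_mul, map_mul, map_pow, map_mul, map_mul]
  calc v τ ^ 2 * (v τ ^ 2 * (v (1 - u ^ 2) * (v (1 + ω ^ 2) * v σ))) ≤ v τ ^ 2 * (v τ ^ 2 * 1) := by
        gcongr
        exact mul_le_one' h8 (mul_le_one' h9 hvσ)
    _ = v τ ^ 2 * v τ ^ 2 := by rw [mul_one]
    _ < v τ ^ 2 * 1 := mul_lt_mul_of_pos_left hτ1 hτ
    _ = v τ ^ 2 := mul_one _

/-- the product formula `1 - c x_j = b^{-j} (1 - c x_0) ∏ (1 - c / x_l)` -/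
theorem Lc_prod_one {x : ℕ → K} (hb : b ≠ 0) (hc0 : c ≠ 0) (j : ℕ)
    (hx : ∀ l < j, x (l + 1) = (x l + (x l)⁻¹ + (b - 1 - c ^ 2) / c) / b)
    (h0 : ∀ l < j, x l ≠ 0) :
    1 - c * x j = b⁻¹ ^ j * ((1 - c * x 0) * ∏ l ∈ range j, (1 - c / x l)) := by
  induction j with
  | zero => simp
  | succ j ih =>
    have ih' := ih (fun l hl => hx l (hl.trans (Nat.lt_succ_self j)))
      (fun l hl => h0 l (hl.trans (Nat.lt_succ_self j)))
    rw [Lc_step hb hc0 (h0 j (Nat.lt_succ_self j)) (hx j (Nat.lt_succ_self j)), ih',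
      prod_range_succ, pow_succ]
    ring

/-- products of elements close to one -/
theorem Lc_prod_near {ι : Type*} {v : Valuation K Γ} (s : Finset ι) {x : ι → K} {r : Γ}
    (hr : r ≤ 1) (hr0 : 0 < r) (hx : ∀ i ∈ s, v (x i - 1) < r) : v (∏ i ∈ s, x i - 1) < r := by
  classical
  induction s using Finset.induction_on with
  | empty => simpa using hr0
  | insert i s his ih =>
    rw [prod_insert his]
    have h1 := ih (fun j hj => hx j (mem_insert_of_mem hj))
    have h2 := hx i (mem_insert_self i s)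
    have h3 := Lc_mul_congr (v := v) (x := x i) (y := 1) (x' := ∏ j ∈ s, x j) (y' := 1) (r := r)
      (by
        rw [show x i = (x i - 1) + 1 by ring]
        exact v.map_add_le (h2.trans_le hr).le (by rw [map_one])) (by rw [map_one]) h2 h1
    rwa [mul_one] at h3

theorem L_half [CharZero k] (hP : IsPl k P) (hc : Ctx P.valuation b c)
    (hr : Rot P.valuation b c q) (hs : Sym P.valuation b c τ β S q) {t yh : k}
    (ht : P.valuation (S - algebraMap k K t) < 1) {x : ℕ → K} {s : ℕ} (hsq : 0 < s)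
    (hsq' : s < q) (hx : ∀ l < s, x (l + 1) = (x l + (x l)⁻¹ + (b - 1 - c ^ 2) / c) / b)
    (hx0 : P.valuation (yc τ (x 0) - τ ^ 2 * algebraMap k K yh) < P.valuation τ ^ 2)
    (hcx : P.valuation (c / x 0 - (1 - b ^ s)) < 1)
    (hout : ∀ l, 0 < l → l < s → 1 < P.valuation (x l)) :
    q = 2 * s ∧ P.valuation (x s - algebraMap k K (yh + t / 2)) < 1 := by
  have hz := hP.charZ
  have v2 : P.valuation 2 = 1 := by
    have := hz 2 two_ne_zero
    rwa [Nat.cast_ofNat] at this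
  set v := P.valuation with hv
  have t0 := hs.t0
  have vt := hs.vt
  have vτ0 : 0 < v τ := zero_lt_iff.2 ((v.ne_zero_iff).2 t0)
  have hτ : 0 < v τ ^ 2 := pow_pos vτ0 2
  have hτ1 : v τ ^ 2 < 1 := pow_lt_one₀ zero_le vt two_ne_zero
  have hττ : v τ ^ 2 < v τ := by
    rw [sq]
    calc v τ * v τ < v τ * 1 := mul_lt_mul_of_pos_left vt vτ0
      _ = v τ := mul_one _
  have vc : v c = v τ := Lc_vc v2 vt hs.ht
  have hb0 : b ≠ 0 := Lc_ne_zero hc.vb
  have hc0 := hc.c0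
  have hvk : ∀ α : k, v (algebraMap k K α) ≤ 1 := hP.cst_le
  have h20 : (2 : K) ≠ 0 := Lc_ne_zero v2
  set Y := algebraMap k K yh with hY
  have vY : v Y ≤ 1 := hvk yh
  -- the point `x 0`
  have hne : 1 - τ * x 0 ≠ 0 := by
    intro h0
    have e : x 0 = τ⁻¹ := by
      rw [sub_eq_zero] at h0
      field_simp
      rw [mul_comm]; exact h0.symm
    rw [e, div_inv_eq_mul] at hcx
    have h1 : v (1 - b ^ s) < 1 := by
      rw [show 1 - b ^ s = c * τ + -(c * τ - (1 - b ^ s)) by ring]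
      apply Valuation.map_add_lt
      · rw [map_mul]; exact lt1_of_lt_of_le hc.vc vt.le
      · rwa [Valuation.map_neg]
    rw [Valuation.map_sub_swap, hr.one s hsq hsq'] at h1
    exact lt_irrefl _ h1
  set y := yc τ (x 0) with hy
  have hy1 : y * (1 - τ * x 0) = x 0 - τ := by
    rw [hy]; unfold yc
    exact div_mul_cancel₀ _ hne
  have vy : v y ≤ v τ ^ 2 := by
    rw [show y = (y - τ ^ 2 * Y) + τ ^ 2 * Y by ring]
    refine v.map_add_le hx0.le ?_
    rw [map_mul, map_pow]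
    exact mul_le_of_le_one_right' vY
  have v1y : v (1 + τ * y) = 1 := by
    apply Lc_one_add
    rw [map_mul]
    exact lt1_of_lt_of_le vt (vy.trans hτ1.le)
  have n1y := Lc_ne_zero v1y
  have hx0y : x 0 = (y + τ) / (1 + τ * y) := by
    rw [eq_div_iff n1y]
    linear_combination -hy1
  have vyτ : v (y + τ) = v τ := by
    apply Valuation.map_add_eq_of_lt_right
    exact vy.trans_lt hττ
  have vx0 : v (x 0) = v τ := by
    rw [hx0y, map_div₀, v1y, div_one, vyτ]
  have nx0 : x 0 ≠ 0 := (v.ne_zero_iff).1 (by rw [vx0]; exact vτ0.ne')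
  have hx0' : v (x 0 - (τ + τ ^ 2 * Y)) < v τ ^ 2 := by
    have e : x 0 - (τ + τ ^ 2 * Y)
        = ((y - τ ^ 2 * Y) + -(τ ^ 2 * (y * (1 + τ * Y)))) / (1 + τ * y) := by
      rw [hx0y, eq_div_iff n1y, sub_mul, div_mul_cancel₀ _ n1y]
      ring
    rw [e, map_div₀, v1y, div_one]
    apply Valuation.map_add_lt _ hx0
    rw [Valuation.map_neg, map_mul, map_pow, map_mul]
    have h3 : v y * v (1 + τ * Y) < 1 := by
      apply lt1_of_lt_of_le (vy.trans_lt hτ1)
      refine v.map_add_le (by rw [map_one]) ?_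
      rw [map_mul]; exact mul_le_one' vt.le vY
    calc v τ ^ 2 * (v y * v (1 + τ * Y)) < v τ ^ 2 * 1 := mul_lt_mul_of_pos_left h3 hτ
      _ = v τ ^ 2 := mul_one _
  have hcx' : v (c / x 0 - 2 * (1 - τ * Y)) < v τ := by
    have e : c / x 0 - 2 * (1 - τ * Y) = (τ ^ 2 * (2 * τ * Y ^ 2 - c)
        + -(2 * (1 - τ * Y) * (x 0 - (τ + τ ^ 2 * Y)))) / x 0 := by
      field_simp
      linear_combination hs.ht
    rw [e, map_div₀, vx0, div_lt_iff₀ vτ0, ← sq]
    have h3 : v (1 - τ * Y) ≤ 1 := by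
      refine v.map_sub_le (by rw [map_one]) ?_
      rw [map_mul]; exact mul_le_one' vt.le vY
    apply Valuation.map_add_lt
    · rw [map_mul, map_pow]
      have h4 : v (2 * τ * Y ^ 2 - c) < 1 := by
        apply Valuation.map_sub_lt
        · rw [map_mul, map_mul, v2, one_mul, map_pow]
          exact lt1_of_lt_of_le vt (pow_le_one' vY 2)
        · exact hc.vc
      calc v τ ^ 2 * v (2 * τ * Y ^ 2 - c) < v τ ^ 2 * 1 := mul_lt_mul_of_pos_left h4 hτ
        _ = v τ ^ 2 := mul_one _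
    · rw [Valuation.map_neg, map_mul, map_mul, v2, one_mul]
      exact (mul_le_of_le_one_left' h3).trans_lt hx0'
  -- `b ^ s = -1` modulo the maximal ideal
  have hbs : v (b ^ s + 1) < 1 := by
    have e : b ^ s + 1 = (c / x 0 - (1 - b ^ s)) + -(c / x 0 - 2 * (1 - τ * Y))
        + 2 * (τ * Y) := by ring
    rw [e]
    apply Valuation.map_add_lt _ (Valuation.map_add_lt _ hcx _)
    · rw [map_mul, v2, one_mul, map_mul]
      exact lt1_of_lt_of_le vt vY
    · rw [Valuation.map_neg]; exact hcx'.trans vt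
  have hbs2 : v (b ^ (2 * s) - 1) < 1 := by
    rw [show b ^ (2 * s) - 1 = (b ^ s + 1) * (b ^ s - 1) by ring, map_mul]
    apply lt1_of_lt_of_le hbs
    refine v.map_sub_le ?_ (by rw [map_one])
    rw [map_pow, hc.vb, one_pow]
  have hbq : v (b ^ q - 1) < 1 := hr.le.trans_lt hc.vc
  have hq2 : q = 2 * s := by
    rcases lt_trichotomy (2 * s) q with h | h | h
    · exact absurd (hr.one (2 * s) (by omega) h) hbs2.ne
    · exact h.symm
    · exfalso
      have h1 := hr.one (2 * s - q) (by omega) (by omega)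
      have e : b ^ (2 * s) - 1 = b ^ (2 * s - q) * (b ^ q - 1) + (b ^ (2 * s - q) - 1) := by
        rw [mul_sub, ← pow_add, Nat.sub_add_cancel h.le]
        ring
      have h2 : v (b ^ (2 * s - q) - 1) < 1 := by
        rw [show b ^ (2 * s - q) - 1 = (b ^ (2 * s) - 1) + -(b ^ (2 * s - q) * (b ^ q - 1)) by
          rw [e]; ring]
        apply Valuation.map_add_lt _ hbs2
        rw [Valuation.map_neg, map_mul, map_pow, hc.vb, one_pow, one_mul]
        exact hbq
      exact absurd h1 h2.ne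
  refine ⟨hq2, ?_⟩
  -- `S` is integral
  have vS : v S ≤ 1 := by
    rw [show S = (S - algebraMap k K t) + algebraMap k K t by ring]
    exact v.map_add_le ht.le (hvk t)
  -- `β`
  have n1 : v (1 + τ ^ 2) = 1 := Lc_one_add (by rw [map_pow]; exact hτ1)
  have n2 : v (1 - τ ^ 2) = 1 := Lc_one_sub (by rw [map_pow]; exact hτ1)
  have n1' := Lc_ne_zero n1
  have n2' := Lc_ne_zero n2
  have vβ : v β = 1 := by
    have := congrArg v hs.hβ
    rw [map_mul, map_mul, n1, n2, hc.vb, mul_one, mul_one] at this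
    exact this
  have hβ0 := Lc_ne_zero vβ
  have hinv : v (b⁻¹ - β⁻¹) ≤ v τ ^ 2 := by
    have hβ := hs.hβ
    have e : b⁻¹ - β⁻¹ = 2 * τ ^ 2 / (b * (1 - τ ^ 2)) * (b * β⁻¹) := by
      have e1 : β = b * (1 + τ ^ 2) / (1 - τ ^ 2) := by rw [← hβ]; field_simp
      rw [e1]
      field_simp
      ring
    rw [e, map_mul, map_div₀, map_mul, v2, one_mul, map_mul, hc.vb, n2, map_mul, map_inv₀, vβ,
      hc.vb, map_pow]
    simp
  have hvb' : v b⁻¹ = 1 := by rw [map_inv₀, hc.vb, inv_one]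
  have hvβ' : v β⁻¹ = 1 := by rw [map_inv₀, vβ, inv_one]
  have hinvs : v (b⁻¹ ^ s - β⁻¹ ^ s) ≤ v τ ^ 2 :=
    (pow_congr_v v hvb'.le hvβ'.le s).trans hinv
  have hbinv : v (b⁻¹ ^ s + 1) < 1 := by
    have e : b⁻¹ ^ s + 1 = b⁻¹ ^ s * (b ^ s + 1) := by
      rw [mul_add, ← mul_pow, inv_mul_cancel₀ hb0, one_pow, mul_one, add_comm]
    rw [e, map_mul, map_pow, hvb', one_pow, one_mul]
    exact hbs
  set B := β⁻¹ ^ s with hB
  have hB1 : v (B + 1) < 1 := by
    rw [show B + 1 = (b⁻¹ ^ s + 1) + -(b⁻¹ ^ s - B) by ring]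
    apply Valuation.map_add_lt _ hbinv
    rw [Valuation.map_neg]
    exact hinvs.trans_lt hτ1
  have vB : v B = 1 := by rw [hB, map_pow, hvβ', one_pow]
  have hS := hs.hS
  rw [hq2, mul_comm 2 s, pow_mul, ← hB] at hS
  have v1S : v (1 + τ * S) = 1 := by
    apply Lc_one_add
    rw [map_mul]; exact lt1_of_lt_of_le vt vS
  have n1S := Lc_ne_zero v1S
  have hBS : v (B + (1 - τ * S)) < v τ := by
    have e1 : (B + (1 - τ * S)) * (B - (1 - τ * S)) * (1 + τ * S)
        = τ ^ 2 * ((1 - τ * S) * S ^ 2) := by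
      linear_combination hS
    have v1 : v (B - (1 - τ * S)) = 1 := by
      rw [show B - (1 - τ * S) = -2 + ((B + 1) + τ * S) by ring, Valuation.map_add_eq_of_lt_left,
        Valuation.map_neg, v2]
      rw [Valuation.map_neg, v2]
      apply Valuation.map_add_lt _ hB1
      rw [map_mul]; exact lt1_of_lt_of_le vt vS
    have e2 := congrArg v e1
    rw [map_mul, map_mul, v1, v1S, mul_one, mul_one] at e2
    rw [e2, map_mul, map_pow]
    refine lt_of_le_of_lt (mul_le_of_le_one_right' ?_) hττ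
    rw [map_mul, map_pow]
    refine mul_le_one' (v.map_sub_le (by rw [map_one]) ?_) (pow_le_one' vS 2)
    rw [map_mul]; exact mul_le_one' vt.le vS
  have hbS : v (b⁻¹ ^ s + (1 - τ * S)) < v τ := by
    rw [show b⁻¹ ^ s + (1 - τ * S) = (b⁻¹ ^ s - B) + (B + (1 - τ * S)) by ring]
    exact Valuation.map_add_lt _ (hinvs.trans_lt hττ) hBS
  -- the outer points
  have hne0 : ∀ l < s, x l ≠ 0 := by
    intro l hl
    rcases Nat.eq_zero_or_pos l with h | h
    · rw [h]; exact nx0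
    · have := hout l h hl
      rintro h0
      rw [h0, map_zero] at this
      exact absurd this (not_lt.2 zero_le)
  have hsize : ∀ l, l + 1 ≤ s → v ((1 - c * x (l + 1)) - b ^ (s - (l + 1))) < 1 := by
    intro l
    induction l with
    | zero =>
      intro h
      rw [Lc_step hb0 hc0 nx0 (hx 0 hsq)]
      have e : b⁻¹ * ((1 - c * x 0) * (1 - c / x 0)) - b ^ (s - (0 + 1))
          = b⁻¹ * (((1 - c * x 0) * (1 - c / x 0)) - 1 * b ^ s) := by
        rw [mul_sub, one_mul]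
        rw [show s = (s - (0 + 1)) + 1 by omega, pow_succ]
        simp only [Nat.zero_add, Nat.add_sub_cancel]
        field_simp
      rw [e, map_mul, hvb', one_mul]
      have hcx0 : v (c * x 0) < 1 := by
        rw [map_mul, vx0]; exact lt1_of_lt_of_le hc.vc vt.le
      apply Lc_mul_congr (Lc_one_sub hcx0).le (by rw [map_pow, hc.vb, one_pow])
      · rw [show 1 - c * x 0 - 1 = -(c * x 0) by ring, Valuation.map_neg]
        exact hcx0
      · rw [show 1 - c / x 0 - b ^ s = -(c / x 0 - (1 - b ^ s)) by ring, Valuation.map_neg]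
        exact hcx
    | succ l ih =>
      intro h
      have ih' := ih (by omega)
      rw [Lc_step hb0 hc0 (hne0 (l + 1) (by omega)) (hx (l + 1) (by omega))]
      have e : b⁻¹ * ((1 - c * x (l + 1)) * (1 - c / x (l + 1))) - b ^ (s - (l + 1 + 1))
          = b⁻¹ * (((1 - c * x (l + 1)) * (1 - c / x (l + 1))) - b ^ (s - (l + 1)) * 1) := by
        rw [mul_sub, mul_one]
        rw [show s - (l + 1) = (s - (l + 1 + 1)) + 1 by omega, pow_succ]
        field_simp
      rw [e, map_mul, hvb', one_mul]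
      have hbp : v (b ^ (s - (l + 1))) ≤ 1 := by rw [map_pow, hc.vb, one_pow]
      apply Lc_mul_congr _ (by rw [map_one]) ih'
      · rw [show 1 - c / x (l + 1) - 1 = -(c / x (l + 1)) by ring, Valuation.map_neg, map_div₀]
        have h5 := hout (l + 1) (by omega) (by omega)
        rw [div_lt_iff₀ (zero_lt_one.trans h5), one_mul]
        exact hc.vc.trans h5
      · rw [show 1 - c * x (l + 1) = (1 - c * x (l + 1) - b ^ (s - (l + 1)))
          + b ^ (s - (l + 1)) by ring]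
        exact v.map_add_le ih'.le hbp
  have hcx1 : ∀ l, 0 < l → l < s → v (c * x l) = 1 := by
    intro l hl hls
    have h1 := hsize (l - 1) (by omega)
    rw [Nat.sub_add_cancel hl] at h1
    have h2 := hr.one (s - l) (by omega) (by omega)
    have e : c * x l = -(b ^ (s - l) - 1) + -(1 - c * x l - b ^ (s - l)) := by ring
    rw [e, Valuation.map_add_eq_of_lt_left, Valuation.map_neg, h2]
    rw [Valuation.map_neg, Valuation.map_neg, h2]
    exact h1
  have hdiv : ∀ l ∈ Ico 1 s, v ((1 - c / x l) - 1) < v τ := by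
    intro l hl
    obtain ⟨hl1, hls⟩ := mem_Ico.1 hl
    have h1 := hcx1 l hl1 hls
    have h0 := hne0 l hls
    have e : 1 - c / x l - 1 = -(c ^ 2 / (c * x l)) := by field_simp; ring
    rw [e, Valuation.map_neg, map_div₀, h1, div_one, map_pow, vc]
    exact hττ
  have hprod := Lc_prod_near (v := v) (Ico 1 s) vt.le vτ0 hdiv
  have hfin := Lc_prod_one hb0 hc0 s hx hne0
  rw [prod_range_eq_mul_Ico _ hsq] at hfin
  generalize (∏ l ∈ Ico 1 s, (1 - c / x l)) = Q0 at *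
  -- collect
  have hcx00 : v ((1 - c * x 0) - 1) < v τ := by
    rw [show 1 - c * x 0 - 1 = -(c * x 0) by ring, Valuation.map_neg, map_mul, vx0, vc, ← sq]
    exact hττ
  have one_le : ∀ z : K, v (z - 1) < v τ → v z ≤ 1 := by
    intro z h
    rw [show z = (z - 1) + 1 by ring]
    exact v.map_add_le (h.trans vt).le (by rw [map_one])
  have h1cx : v ((1 - c / x 0) - (1 - 2 * (1 - τ * Y))) < v τ := by
    rw [show (1 - c / x 0) - (1 - 2 * (1 - τ * Y)) = -(c / x 0 - 2 * (1 - τ * Y)) by ring,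
      Valuation.map_neg]
    exact hcx'
  have hM : v (1 - 2 * (1 - τ * Y)) ≤ 1 := by
    refine v.map_sub_le (by rw [map_one]) ?_
    rw [map_mul, v2, one_mul]
    refine v.map_sub_le (by rw [map_one]) ?_
    rw [map_mul]; exact mul_le_one' vt.le vY
  have hM' : v (1 - c / x 0) ≤ 1 := by
    rw [show 1 - c / x 0 = ((1 - c / x 0) - (1 - 2 * (1 - τ * Y))) + (1 - 2 * (1 - τ * Y)) by ring]
    exact v.map_add_le (h1cx.trans vt).le hM
  have g1 := Lc_mul_congr (v := v) hM' (by rw [map_one]) h1cx hprod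
  have g1' : v ((1 - 2 * (1 - τ * Y)) * 1) ≤ 1 := by rwa [mul_one]
  have g2 := Lc_mul_congr (v := v) (one_le _ hcx00) g1' hcx00 g1
  have hbS' : v (b⁻¹ ^ s - -(1 - τ * S)) < v τ := by
    rwa [sub_neg_eq_add]
  have g3 := Lc_mul_congr (v := v) (by rw [map_pow, hvb', one_pow])
    (by rw [one_mul]; exact g1') hbS' g2
  rw [← hfin] at g3
  -- conclusion
  have e : c * (x s - algebraMap k K (yh + t / 2))
      = -(1 - c * x s - -(1 - τ * S) * (1 * ((1 - 2 * (1 - τ * Y)) * 1)))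
        + τ * (-(2 * (τ * (S * Y))) + ((1 + τ ^ 2)⁻¹ * ((S - algebraMap k K t)
          + τ ^ 2 * (S + 2 * Y)))) := by
    have hcc : c = 2 * τ / (1 + τ ^ 2) := by rw [← hs.ht]; field_simp
    rw [map_add, map_div₀, map_ofNat, ← hY]
    field_simp
    rw [hcc]
    field_simp
    ring
  have e' := congrArg v e
  rw [map_mul, vc] at e'
  have hlt : v τ * v (x s - algebraMap k K (yh + t / 2)) < v τ := by
    rw [e']
    apply Valuation.map_add_lt
    · rw [Valuation.map_neg]; exact g3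
    · rw [map_mul]
      have h6 : v (-(2 * (τ * (S * Y))) + ((1 + τ ^ 2)⁻¹ * ((S - algebraMap k K t)
          + τ ^ 2 * (S + 2 * Y)))) < 1 := by
        apply Valuation.map_add_lt
        · rw [Valuation.map_neg, map_mul, v2, one_mul, map_mul, map_mul]
          exact lt1_of_lt_of_le vt (mul_le_one' vS vY)
        · rw [map_mul, map_inv₀, n1, inv_one, one_mul]
          apply Valuation.map_add_lt _ ht
          rw [map_mul, map_pow]
          apply lt1_of_lt_of_le hτ1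
          refine v.map_add_le vS ?_
          rw [map_mul, v2, one_mul]; exact vY
      calc v τ * _ < v τ * 1 := mul_lt_mul_of_pos_left h6 vτ0
        _ = v τ := mul_one _
  exact lt_of_mul_lt_mul_left' (hlt.trans_eq (mul_one _).symm)

end Lc

end Pool.Agent.helper56.P3
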